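import Mathlib
import Pool.Agent.H204R3.GP.Defs
import Pool.Agent.H204R3.GP.MTDefs
import Pool.Agent.W516.MT.Defs
import Pool.Agent.W522.J.Defs
import Pool.Agent.W522.J.J4

/-!
# The Mumford-Tate conjecture for abelian varieties with operators of small rank

Let `A` be an abelian variety over a number field `L` embedded in the complex numbers, with any
endomorphisms: products and factors of every type (type IV included) are allowed. Let `ℓ` be a prime
number, `V = ℚ_ℓ ⊗ H_1(A, ℚ)` the rational Tate module with the action `ρ` of the Galois group `Γ`,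
`χ` the cyclotomic character, `Ω` an algebraic closure of `ℚ_ℓ` and `X = Ω ⊗ V`.

The *strongly irreducible* subspaces `U` of `X` (predicate `SI`) are the minimal nonzero subspaces
that are stable under a subgroup of finite index of `Γ`. Let `lieT` be the space of the operators on
`X` that kill all Tate forms (multilinear forms in `2 m` variables on which a subgroup of finite
index acts by `χ ^ m`). It contains

* the Lie algebra of the image of Galois, minus half the Lie algebra of the multiplier;
* the logarithms of the monodromy of inertia groups at places of semistable reduction;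
* for a Frobenius element `γ` and a homomorphism `f` from the multiplicative to the additive group
  of `Ω`, the operator `f(γ) - f(χ(γ)) / 2` (which is `f(λ) - f(χ(γ)) / 2` on the generalised
  eigenspace of `λ`);
* the Hodge-Tate operators `p - 1/2`, `p` the projection to the part of weight one of the Hodge-Tate
  decomposition at a place above `ℓ`.

Suppose that

* (`HasSmallOperator`) for every strongly irreducible `U` of dimension at least THREE some operator
  `x` in `lieT` is small on `U`: `x - c` has rank one on `U` for some scalar `c`; or `U` is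
  self-dual with an alternating pairing and `x` has rank two on `U`, or it has odd rank and square
  zero on `U`;
* (`TwistFree2`) if `U` has dimension at least two and is not self-dual, then every twist of `U` by
  a character that occurs in `X` is potentially isomorphic to `U`, or (in dimension two) dual to it.

Then all Tate classes in all the spaces `(H^1)^{⊗ 2 m}(m)`, and so in the cohomology of all powers
`A ^ n`, are linear combinations of Hodge classes. Together with the theorem of Deligne (Hodge
classes are Tate classes) this is the equality of the Mumford-Tate group over `ℚ_ℓ` and of the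
connected component of the `ℓ`-adic monodromy group: both are reductive (Faltings), so that they are
determined by these classes. There is no condition on determinants: Tate classes of Weil type may
occur. If all `U` are self-dual (types I, II, III) the second condition is empty.

Examples. (1) `End(A) = ℤ` and `A` has a place of semistable reduction of odd toric rank, or of
toric rank two. (2) `A` has real multiplication by `F` or quaternion multiplication (type II) over
`F`, and for every embedding of `F` into `Ω` there is a place at which the monodromy has odd rank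
(or rank at most two) on the corresponding `U`. (3) `A` is of type IV, the `U` are no twists of each
other, and every `U` has a Hodge-Tate decomposition with a part of dimension one at some place.
(4) All products of such abelian varieties and of abelian varieties for which the `U` have
dimension at most two, if there are no twists.

In the statement `W` is `H_1(A, ℚ)`, `T` the tangent space at the origin and `per : W → T` the
inclusion, `ω₀` is the form given by a polarization, `ω` the Weil pairing. The hypotheses `hss`, `hF`
are the theorems of Faltings, `hD` is the theorem of Deligne, `hC` the theorem on centres (Vasiu,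
Ullmo-Yafaev), `hHT` is the existence of the Hodge-Tate decomposition (Tate, Raynaud) and `hPink`
the theorem of Pink (the connected monodromy group is generated by weak Hodge cocharacters).

The proof combines the theorem of helper528 on Lie algebras of symplectic operators with square-zero
elements of odd rank, the structure of the Lie algebra of the Tate classes (all operators of trace
zero, resp. all symplectic ones, on the isotypic components of `U` and its dual) and the reduction
of the Mumford-Tate conjecture to the centre in `MP_c1bb77_ag/ReflectionsAllTypes`.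
-/

namespace Pool.Agent.Results.MP_33b3f9_ag.OperatorsOfSmallRank

open Module TensorProduct Pool.Agent.H204R3.GP Pool.Agent.W516.MTD Pool.Agent.W522.U
  Pool.Agent.W522.T Pool.Agent.W522.J

/-- The Mumford-Tate conjecture for an abelian variety of any type whose strongly irreducible pieces
of dimension at least three have operators of small rank. -/
theorem result (ℓ : ℕ) [Fact ℓ.Prime]
    -- the complex torus `A(ℂ)` with a polarization
    {W T : Type} [AddCommGroup W] [Module ℚ W] [FiniteDimensional ℚ W] [AddCommGroup T]
    [Module ℂ T] (per : W →+ T) (hper : IsRationalStructure per)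
    (ω₀ : W →ₗ[ℚ] W →ₗ[ℚ] ℚ) (hω₀ : IsHodgeBilinear per ω₀)
    -- the Galois group, its action on the Tate module and the Weil pairing
    {Γ : Type} [Group Γ] (ρ : Representation ℚ_[ℓ] Γ (ℚ_[ℓ] ⊗[ℚ] W)) (χ : Γ →* ℚ_[ℓ])
    (ω : ℚ_[ℓ] ⊗[ℚ] W →ₗ[ℚ_[ℓ]] ℚ_[ℓ] ⊗[ℚ] W →ₗ[ℚ_[ℓ]] ℚ_[ℓ])
    (hωω : ∀ u v : W, ω ((1 : ℚ_[ℓ]) ⊗ₜ[ℚ] u) ((1 : ℚ_[ℓ]) ⊗ₜ[ℚ] v) = ((ω₀ u v : ℚ) : ℚ_[ℓ]))
    (halt : ∀ v, ω v v = 0) (hnd : ∀ u, (∀ v, ω u v = 0) → u = 0)
    (hωρ : ∀ s u v, ω (ρ s u) (ρ s v) = χ s * ω u v)
    -- the theorems of Faltings and Deligne and the theorem on centres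
    (hss : FiniteIndexSemisimple ρ) (hF : Faltings per ρ) (hD : Deligne per ρ χ)
    (hC : Centres per ρ χ)
    -- the extension of the representation to an algebraic closure
    (Ω : Type) [Field Ω] [Algebra ℚ_[ℓ] Ω] [IsAlgClosure ℚ_[ℓ] Ω]
    (R : Representation Ω Γ (Ω ⊗[ℚ_[ℓ]] (ℚ_[ℓ] ⊗[ℚ] W))) (hR : ∀ s, R s = (ρ s).baseChange Ω)
    (χ' : Γ →* Ω) (hχ' : ∀ s, χ' s = algebraMap ℚ_[ℓ] Ω (χ s))
    -- the Hodge-Tate decomposition and the theorem of Pink
    (hHT : HasHodgeTate R χ') (hPink : HodgeTateGenerate R χ')
    (hE : ∀ U, SI R U → 3 ≤ finrank Ω U → HasSmallOperator R χ' U)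
    (htwist : TwistFree2 R χ')
    (m : ℕ) (φ : MultilinearMap ℚ_[ℓ] (fun _ : Fin m × Fin 2 => ℚ_[ℓ] ⊗[ℚ] W) ℚ_[ℓ])
    (hφ : IsTateTensor ρ χ m φ) : IsHodgeCombination per φ := by
  have _ : IsAlgClosed Ω := IsAlgClosure.isAlgClosed ℚ_[ℓ]
  have _ : Algebra.IsAlgebraic ℚ_[ℓ] Ω := IsAlgClosure.isAlgebraic
  have _ : CharZero Ω := charZero_of_injective_algebraMap (algebraMap ℚ_[ℓ] Ω).injective
  have hR' : R = Pool.Agent.H204R3.SP.bcr ρ Ω := by
    ext1 s
    exact hR s
  have hχ'' : χ' = Pool.Agent.H204R3.SP.bcc χ Ω := by
    ext1 s
    exact hχ' s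
  subst hR' hχ''
  have hanti : ∀ u v, ω u v = -ω v u := by
    intro u v
    have h1 := halt (u + v)
    simp only [map_add, LinearMap.add_apply, halt, zero_add, add_zero] at h1
    exact eq_neg_of_add_eq_zero_left (by rw [← h1]; ring)
  have hnd' : ∀ u, (∀ v, ω v u = 0) → u = 0 := by
    intro u hu
    apply hnd
    intro v
    rw [hanti, hu, neg_zero]
  have hnb := bcb_nondeg_left (Ω := Ω) ω hnd' hnd
  have hinv := Pool.Agent.H204R3.SP.bcb_inv (Ω := Ω) ρ χ ω hωρ
  have hproj : HasProj (Pool.Agent.H204R3.SP.bcr ρ Ω) := hasProj_bcr ρ Ω hss
  have hE' : ∀ U, SI (Pool.Agent.H204R3.SP.bcr ρ Ω) U → 2 ≤ finrank Ω U →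
      HasReflection (Pool.Agent.H204R3.SP.bcr ρ Ω) U ∨ (3 ≤ finrank Ω U ∧
        HasSmallOperator (Pool.Agent.H204R3.SP.bcr ρ Ω) (Pool.Agent.H204R3.SP.bcc χ Ω) U) := by
    intro U hU h2
    rcases Nat.lt_or_ge 2 (finrank Ω U) with h3 | h3
    · exact Or.inr ⟨h3, hE U hU h3⟩
    · exact Or.inl (Pool.Agent.W522.S.refl_of_two ℓ ρ hU (le_antisymm h3 h2))
  refine mt_of_fam per ρ χ ω₀ ω hω₀ (fun u v => by rw [hωω, eq_ratCast]) hωρ hD
    hper halt hnd hss hF hC Ω (fun s W hW hWW st hst hDu hDu' => ?_) m φ hφ
  exact family' _ hnb (fun g u v => hinv g u v) hproj hPink hE'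
    (lines_of_hodge_tate _ hnb (fun g u v => hinv g u v) hproj hHT) htwist W hW hWW st hst hDu hDu'

end Pool.Agent.Results.MP_33b3f9_ag.OperatorsOfSmallRank
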