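import Mathlib
import Pool.Agent.H204R3.GP.Defs
import Pool.Agent.H204R3.GP.MTDefs
import Pool.Agent.H204R3.GP.MT
import Pool.Agent.W522.U.Defs
import Pool.Agent.W528.Tor.MainE
import Pool.Agent.W528.Tor.Defs

/-!
# The Mumford-Tate conjecture for abelian varieties with places of small toric rank

Let `A` be an abelian variety over a finitely generated subfield of the complex numbers, and let `Ω`
be an algebraic closure of `ℚ_ℓ`.  The *strongly irreducible* subspaces `U` of `Ω ⊗ V`, where `V` is
the rational Tate module (predicate `SI`), are the minimal nonzero subspaces that are stable under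
a subgroup of finite index of the Galois group.  If `End(A) = ℤ` there is just one, `Ω ⊗ V`.
Suppose that

* (small toric rank) for every strongly irreducible `U` of dimension at least two there is an
  element `γ` of the Galois group (for example in the inertia group of a place of semistable
  reduction) with `(γ - 1) ^ 2 = 0` such that `γ - 1` has rank one on `U`, or has rank two on `U`
  and `U` is self-dual with an alternating pairing;
* the one-dimensional `U` (which come from the factors of CM type) are not self-dual;
* (twists) if `U` has dimension at least two and is not self-dual, then every twist of `U` by a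
  character that occurs in `Ω ⊗ V` is potentially isomorphic to `U`;
* (determinants) the characters `det(U i) ^ 2 / χ ^ (dim (U i))` of the strongly irreducible
  subspaces `U i` which are pairwise neither isomorphic nor dual, and not self-dual, are
  multiplicatively independent modulo characters of finite order.

(If `A` is a product of abelian varieties of types I and II, only the first condition is left.)
Then all Tate classes in the tensor powers of `H^1` are linear combinations of Hodge classes, and
even of products of Hodge classes of degree two.  Together with the theorem of Deligne (Hodge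
classes are Tate classes) this is the equality of the Mumford-Tate group (over `ℚ_ℓ`) and of the
connected component of the `ℓ`-adic monodromy group: both are reductive (Faltings), so that they
are determined by their invariants.  So the Mumford-Tate conjecture holds for `A`.

In the Lean statement `W` is `H_1(A, ℚ)`, `T` the tangent space at the origin and `per : W → T` the
inclusion, `ω₀` is the form given by a polarization; `V` is the rational Tate module with the
comparison map `comp : W → V`, the action `ρ` of the Galois group and the Weil pairing `ω`; `χ` is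
the cyclotomic character.  The hypotheses `hss` and `hF` are the theorems of Faltings.
-/

namespace Pool.Agent.Results.MP_33b3f9_ag.SmallToricRankMT

open Module TensorProduct Pool.Agent.H204R3.GP Pool.Agent.H204R3.SP Pool.Agent.W522.U
open Pool.Agent.W528.Tor

theorem result (ℓ : ℕ) [Fact ℓ.Prime]
    -- the complex torus `A(ℂ)` with a polarization
    {W T : Type} [AddCommGroup W] [Module ℚ W] [AddCommGroup T] [Module ℂ T] (per : W →+ T)
    (ω₀ : W →ₗ[ℚ] W →ₗ[ℚ] ℚ) (hω₀ : IsHodgeBilinear per ω₀)
    -- the Tate module
    {V : Type} [AddCommGroup V] [Module ℚ_[ℓ] V] [FiniteDimensional ℚ_[ℓ] V] (comp : W →+ V)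
    {Γ : Type} [Group Γ] (ρ : Representation ℚ_[ℓ] Γ V) (χ : Γ →* ℚ_[ℓ])
    (ω : V →ₗ[ℚ_[ℓ]] V →ₗ[ℚ_[ℓ]] ℚ_[ℓ]) (halt : ∀ v, ω v v = 0)
    (hnondeg : ∀ u, (∀ v, ω v u = 0) → u = 0)
    (hω : ∀ s u v, ω (ρ s u) (ρ s v) = χ s * ω u v)
    (hωω : ∀ x y, ω (comp x) (comp y) = ((ω₀ x y : ℚ) : ℚ_[ℓ]))
    (hss : FiniteIndexSemisimple ρ) (hF : FaltingsEnd per comp ρ)
    (Ω : Type) [Field Ω] [Algebra ℚ_[ℓ] Ω] [IsAlgClosure ℚ_[ℓ] Ω]
    (R : Representation Ω Γ (Ω ⊗[ℚ_[ℓ]] V)) (hR : ∀ s, R s = (ρ s).baseChange Ω)
    (χ' : Γ →* Ω) (hχ' : ∀ s, χ' s = algebraMap ℚ_[ℓ] Ω (χ s))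
    (hsmall : HasSmallUnipotents R χ') (hone : LinesNotSelfDual R χ') (htwist : TwistFree R χ')
    (hdet : DetIndependent R χ') :
    MumfordTateStrong per comp ρ χ := by
  have _ : IsAlgClosed Ω := IsAlgClosure.isAlgClosed ℚ_[ℓ]
  have _ : Algebra.IsAlgebraic ℚ_[ℓ] Ω := IsAlgClosure.isAlgebraic
  have _ : CharZero Ω := charZero_of_injective_algebraMap (algebraMap ℚ_[ℓ] Ω).injective
  have hR' : R = bcr ρ Ω := by
    ext1 s
    exact hR s
  have hχ'' : χ' = bcc χ Ω := by
    ext1 s
    exact hχ' s
  subst hR' hχ''
  exact mumfordTate_of per comp ρ χ ω (left_nondeg ω halt hnondeg) hω ω₀ hω₀ hωω hF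
    fun m φ hφ => tate_descent_any (Ω := Ω) (Module.finBasis ℚ_[ℓ] V) ρ χ
      (fun φ' hφ' => main_X2 (bcb Ω ω)
        (bcb_nondeg_left ω hnondeg (left_nondeg ω halt hnondeg))
        (fun g u v => bcb_inv ρ χ ω hω g u v) hsmall hone htwist hdet (hasProj_bcr ρ Ω hss) φ' hφ')
      φ hφ

end Pool.Agent.Results.MP_33b3f9_ag.SmallToricRankMT
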